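import Pool.Agent.Run7.h543.DEP.Stm3
import Pool.Agent.Run7.h270.DEP.UPP

/-!
# UPG: the Jastrow upper bound with a pair potential (project DEQ of helper543)

Adapted from `Pool.Agent.Run7.h270.DEP.UPP` (helper270).
-/

set_option autoImplicit false
set_option linter.unusedSectionVars false

noncomputable section

namespace Pool.Agent.Run7.h348.DEP

open Finset hiding sum_card
open Run7.h259.BEC hiding QQ PP
open Matrix Run7.h543.DEP Pool.Agent.Run7.h270.DEP

variable {V : Type} [Fintype V] [DecidableEq V]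

variable (U : Matrix V V ℝ)

/-- the energy of one pair is at most `c` -/
lemma diagK (t w : V → V → ℝ) (Hd : V → V → Prop) [DecidableRel Hd] (D ν c κ B : ℝ)
    (ht : IsHopping t D) (hν : 0 < ν) (hP : KProfile t w Hd ν c κ B U) (z : V) :
    QQ U t z z + ∑ x, w x z / 2 * (1 - U x z) ^ 2 ≤ c := by
  have h1 : QQ U t z z = ∑ x, ∑ y, lap t x y * (U x z * U y z) := by
    rw [lap_quad t ht.symm fun x => U x z, QQ]
    congr 1
    refine sum_congr rfl fun x _ => sum_congr rfl fun y _ => ?_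
    rw [abs_mul_abs_self]; ring
  have h2 : ∀ x, ∑ y, lap t x y * (U x z * U y z) = U x z * (lap t * U) x z := by
    intro x
    rw [Matrix.mul_apply, mul_sum]
    exact sum_congr rfl fun y _ => by ring
  rw [h1, sum_congr rfl fun x _ => h2 x, ← sum_add_distrib]
  have h3 : ∀ x, U x z * (lap t * U) x z + w x z / 2 * (1 - U x z) ^ 2 ≤
      (lap t * U) x z + ν * U x z := by
    intro x
    by_cases hx : Hd x z
    · rw [hP.hard x z hx]
      nlinarith
    · have e := hP.soft x z hx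
      have e2 : w x z / 2 * (1 - U x z) ^ 2 =
          (1 - U x z) * ((lap t * U) x z + ν * U x z) := by rw [e]; ring
      rw [e2]
      nlinarith [mul_nonneg hν.le (sq_nonneg (U x z))]
  have h4 : ∑ x, (lap t * U) x z = 0 := by
    simp only [Matrix.mul_apply]
    rw [sum_comm]
    refine sum_eq_zero fun y _ => ?_
    rw [← sum_mul]
    have h5 : ∑ x, lap t x y = 0 := by
      rw [sum_congr rfl fun x _ => lap_symm ht.symm x y]
      exact lap_row t y
    rw [h5, zero_mul]
  calc _ ≤ ∑ x, ((lap t * U) x z + ν * U x z) := sum_le_sum fun x _ => h3 x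
    _ = c := by rw [sum_add_distrib, h4, zero_add, ← mul_sum, hP.total z]

lemma QQ_sumK (t : V → V → ℝ) (D B : ℝ) (ht : IsHopping t D) (hB : 0 < B)
    (hs : ∀ x y, U x y = U y x) (h0 : ∀ x y, 0 ≤ U x y) (hrow : ∀ x, ∑ y, U x y ≤ B) (z : V) :
    ∑ w, QQ U t z w ≤ 2 * D * B ^ 2 := by
  have h1 : ∑ w, QQ U t z w =
      (∑ x, ∑ y, t x y * |U x z - U y z| * ∑ w, |U x w - U y w|) / 2 := by
    unfold QQ
    rw [← sum_div]
    congr 1
    rw [sum_comm]
    refine sum_congr rfl fun x _ => ?_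
    rw [sum_comm]
    refine sum_congr rfl fun y _ => ?_
    rw [mul_sum]
    exact sum_congr rfl fun w _ => by ring
  have h2 : ∀ x y, ∑ w, |U x w - U y w| ≤ 2 * B := by
    intro x y
    have : ∑ w, |U x w - U y w| ≤ ∑ w, (U x w + U y w) := sum_le_sum fun w _ => by
      have a1 := h0 x w
      have a2 := h0 y w
      rw [abs_le]; constructor <;> linarith
    rw [sum_add_distrib] at this
    linarith [hrow x, hrow y]
  have h3 : ∑ x, ∑ y, t x y * |U x z - U y z| ≤ 2 * D * B := by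
    have a1 : ∑ x, ∑ y, t x y * |U x z - U y z| ≤ ∑ x, ∑ y, (t x y * U x z + t x y * U y z) := by
      refine sum_le_sum fun x _ => sum_le_sum fun y _ => ?_
      rw [← mul_add]
      refine mul_le_mul_of_nonneg_left ?_ (ht.nonneg x y)
      have a1 := h0 x z
      have a2 := h0 y z
      rw [abs_le]; constructor <;> linarith
    have a2 : ∑ x, ∑ y, t x y * U y z = ∑ x, ∑ y, t x y * U x z := by
      rw [sum_comm]
      exact sum_congr rfl fun x _ => sum_congr rfl fun y _ => by rw [ht.symm y x]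
    have a3 : ∑ x, ∑ y, t x y * U x z ≤ D * B := by
      calc ∑ x, ∑ y, t x y * U x z ≤ ∑ x, D * U x z := sum_le_sum fun x _ => by
            rw [← sum_mul]
            exact mul_le_mul_of_nonneg_right (ht.row x) (h0 x z)
        _ = D * ∑ x, U z x := by rw [← mul_sum]; congr 1; exact sum_congr rfl fun x _ => hs x z
        _ ≤ D * B := by
            have hD : 0 ≤ D := by
              have := ht.row z
              exact le_trans (sum_nonneg fun y _ => ht.nonneg z y) this
            exact mul_le_mul_of_nonneg_left (hrow z) hD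
    simp only [sum_add_distrib] at a1
    linarith
  rw [h1]
  have h4 : ∑ x, ∑ y, t x y * |U x z - U y z| * ∑ w, |U x w - U y w| ≤
      ∑ x, ∑ y, t x y * |U x z - U y z| * (2 * B) :=
    sum_le_sum fun x _ => sum_le_sum fun y _ =>
      mul_le_mul_of_nonneg_left (h2 x y) (mul_nonneg (ht.nonneg x y) (abs_nonneg _))
  have h5 : ∑ x, ∑ y, t x y * |U x z - U y z| * (2 * B) =
      (∑ x, ∑ y, t x y * |U x z - U y z|) * (2 * B) := by
    rw [sum_mul]; exact sum_congr rfl fun x _ => by rw [sum_mul]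
  rw [h5] at h4
  nlinarith

lemma quad_leK (t : V → V → ℝ) (D : ℝ) (ht : IsHopping t D) (h0 : ∀ x y, 0 ≤ U x y)
    (h1 : ∀ x y, U x y ≤ 1) (S : Finset V) :
    ∑ x, ∑ y, lap t x y * (FF U S x * FF U S y) ≤
      ∑ z ∈ S, QQ U t z z + ∑ z ∈ S, ∑ w ∈ S.erase z, QQ U t z w := by
  rw [lap_quad t ht.symm]
  have h2 : (∑ x, ∑ y, t x y * (FF U S x - FF U S y) ^ 2) / 2 ≤
      ∑ z ∈ S, ∑ w ∈ S, QQ U t z w := by
    have e : ∑ z ∈ S, ∑ w ∈ S, QQ U t z w = (∑ x, ∑ y, t x y *
        (∑ z ∈ S, |U x z - U y z|) ^ 2) / 2 := by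
      unfold QQ
      simp only [← sum_div]
      congr 1
      have e1 : ∀ x y, t x y * (∑ z ∈ S, |U x z - U y z|) ^ 2 =
          ∑ z ∈ S, ∑ w ∈ S, t x y * (|U x z - U y z| * |U x w - U y w|) := by
        intro x y
        rw [pow_two, sum_mul_sum, mul_sum]
        exact sum_congr rfl fun z _ => by rw [mul_sum]
      simp only [e1]
      symm
      rw [sum_congr rfl fun x _ => sum_comm, sum_comm]
      refine sum_congr rfl fun z _ => ?_
      rw [sum_congr rfl fun x _ => sum_comm, sum_comm]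
    rw [e]
    refine div_le_div_of_nonneg_right ?_ (by norm_num)
    refine sum_le_sum fun x _ => sum_le_sum fun y _ => ?_
    refine mul_le_mul_of_nonneg_left ?_ (ht.nonneg x y)
    rw [← sq_abs]
    refine pow_le_pow_left₀ (abs_nonneg _) ?_ 2
    have := prod_diff (fun z => 1 - U x z) (fun z => 1 - U y z)
      (fun z => by linarith [h1 x z]) (fun z => by linarith [h0 x z])
      (fun z => by linarith [h1 y z]) (fun z => by linarith [h0 y z]) S
    refine this.trans (le_of_eq (sum_congr rfl fun z _ => ?_))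
    rw [abs_sub_comm]; congr 1; ring
  refine h2.trans (le_of_eq ?_)
  rw [← sum_add_distrib]
  refine sum_congr rfl fun z hz => ?_
  rw [← add_sum_erase S _ hz]

lemma pair_allK (t : V → V → ℝ) (D B : ℝ) (ht : IsHopping t D) (hB : 0 < B)
    (hs : ∀ x y, U x y = U y x) (h0 : ∀ x y, 0 ≤ U x y) (h1 : ∀ x y, U x y ≤ 1)
    (hrow : ∀ x, ∑ y, U x y ≤ B) (K : ℕ) :
    ∑ S ∈ powersetCard K univ, AA U S * ∑ z ∈ S, ∑ w ∈ S.erase z, QQ U t z w ≤
      (Fintype.card V * (2 * D * B ^ 2)) * (if 2 ≤ K then ZZ U (K - 2) else 0) := by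
  set R : ℝ := if 2 ≤ K then ZZ U (K - 2) else 0 with hR
  have hR0 : 0 ≤ R := by
    rw [hR]; split_ifs
    · exact ZZ_nonneg U h1 _
    · exact le_rfl
  have e1 : ∀ S : Finset V, AA U S * ∑ z ∈ S, ∑ w ∈ S.erase z, QQ U t z w =
      ∑ z, ∑ w, QQ U t z w * (if z ∈ S ∧ w ∈ S.erase z then AA U S else 0) := by
    intro S
    rw [mul_sum, ← sum_filter_add_sum_filter_not univ (fun z => z ∈ S)]
    rw [sum_eq_zero (s := univ.filter fun z => ¬ z ∈ S), add_zero]
    · rw [show (univ.filter fun z => z ∈ S) = S by ext z; simp]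
      refine sum_congr rfl fun z hz => ?_
      rw [mul_sum, ← sum_filter_add_sum_filter_not univ (fun w => w ∈ S.erase z)]
      rw [sum_eq_zero (s := univ.filter fun w => ¬ w ∈ S.erase z), add_zero]
      · rw [show (univ.filter fun w => w ∈ S.erase z) = S.erase z by ext w; simp]
        refine sum_congr rfl fun w hw => ?_
        rw [if_pos ⟨hz, hw⟩, mul_comm]
      · intro w hw
        rw [mem_filter] at hw
        rw [if_neg (fun h => hw.2 h.2), mul_zero]
    · intro z hz
      rw [mem_filter] at hz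
      refine sum_eq_zero fun w _ => ?_
      rw [if_neg (fun h => hz.2 h.1), mul_zero]
  have e2 : ∑ S ∈ powersetCard K univ, AA U S * ∑ z ∈ S, ∑ w ∈ S.erase z, QQ U t z w =
      ∑ z, ∑ w, QQ U t z w * ∑ S ∈ powersetCard K univ,
        (if z ∈ S ∧ w ∈ S.erase z then AA U S else 0) := by
    rw [sum_congr rfl fun S _ => e1 S, sum_comm]
    refine sum_congr rfl fun z _ => ?_
    rw [sum_comm]
    exact sum_congr rfl fun w _ => by rw [mul_sum]
  rw [e2]
  calc _ ≤ ∑ z, ∑ w, QQ U t z w * R := sum_le_sum fun z _ => sum_le_sum fun w _ =>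
        mul_le_mul_of_nonneg_left (pair_one U hs h0 h1 K z w)
          (QQ_nonneg U t ht.nonneg z w)
    _ = ∑ z, (∑ w, QQ U t z w) * R := sum_congr rfl fun z _ => by rw [sum_mul]
    _ ≤ ∑ z : V, (2 * D * B ^ 2) * R := sum_le_sum fun z _ =>
        mul_le_mul_of_nonneg_right (QQ_sumK U t D B ht hB hs h0 hrow z) hR0
    _ = _ := by rw [sum_const, card_univ, nsmul_eq_mul]; ring

lemma FF_sq_le (h0 : ∀ x y, 0 ≤ U x y) (h1 : ∀ x y, U x y ≤ 1) (S : Finset V) (x z : V)
    (hz : z ∈ S) : FF U S x ^ 2 ≤ (1 - U x z) ^ 2 := by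
  have e : FF U S x = (1 - U x z) * FF U (S.erase z) x := by
    unfold FF
    rw [mul_prod_erase S (fun z => 1 - U x z) hz]
  have a0 := FF_nonneg U h1 (S.erase z) x
  have a1 := FF_le_one U h0 h1 (S.erase z) x
  have a2 : 0 ≤ 1 - U x z := by linarith [h1 x z]
  refine pow_le_pow_left₀ (FF_nonneg U h1 S x) ?_ 2
  rw [e]
  exact mul_le_of_le_one_right a2 a1

/-- the potential energy of the Jastrow function -/
lemma potR_PP (w : V → V → ℝ) (hw : ∀ x y, 0 ≤ w x y) (hs : ∀ x y, U x y = U y x)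
    (h0 : ∀ x y, 0 ≤ U x y) (h1 : ∀ x y, U x y ≤ 1) (M : ℕ) :
    potR w (PP U (M + 1)) ≤ ∑ S ∈ powersetCard M univ,
      AA U S * ∑ z ∈ S, ∑ x, w x z / 2 * (1 - U x z) ^ 2 := by
  have e1 : potR w (PP U (M + 1)) = ∑ S ∈ powersetCard (M + 1) (univ : Finset V), ∑ x ∈ S,
      AA U S * ∑ y ∈ S, (if x = y then 0 else w x y / 2) := by
    unfold potR pairW
    rw [← sum_card]
    refine sum_congr rfl fun S _ => ?_
    unfold PP
    split_ifs with h
    · rw [Real.sq_sqrt (AA_nonneg U h1 S), mul_comm, mul_sum]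
    · rw [zero_pow (two_ne_zero), mul_zero]
  rw [e1, ← count (fun S x => AA U S * ∑ y ∈ S, (if x = y then 0 else w x y / 2)) M]
  refine sum_le_sum fun S _ => ?_
  have hA := AA_nonneg U h1 S
  have e2 : ∀ x ∈ Sᶜ, AA U (insert x S) *
      ∑ y ∈ insert x S, (if x = y then 0 else w x y / 2) ≤
      AA U S * ∑ z ∈ S, w x z / 2 * (1 - U x z) ^ 2 := by
    intro x hx
    have hx' : x ∉ S := mem_compl.mp hx
    rw [AA_insert U hs S x hx', sum_insert hx', if_pos rfl, zero_add, mul_assoc]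
    refine mul_le_mul_of_nonneg_left ?_ hA
    rw [mul_sum]
    refine sum_le_sum fun z hz => ?_
    rw [if_neg (fun h : x = z => hx' (h ▸ hz)), mul_comm]
    exact mul_le_mul_of_nonneg_left (FF_sq_le U h0 h1 S x z hz) (by linarith [hw x z])
  refine (sum_le_sum e2).trans ?_
  rw [← mul_sum, sum_comm]
  refine mul_le_mul_of_nonneg_left (sum_le_sum fun z _ => ?_) hA
  exact sum_le_sum_of_subset_of_nonneg (subset_univ _) fun x _ _ =>
    mul_nonneg (by linarith [hw x z]) (sq_nonneg _)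

theorem t_UPG : S_UPG := by
  intro V _ _ t w Hd _ D ν c κ B k U hD hν hB ht hw hP N hN h4
  have ho : ∀ x, U x x = 1 := fun x => hP.hard x x (hw.hrefl x)
  obtain ⟨M, rfl⟩ : ∃ M, N = M + 1 := ⟨N - 1, by omega⟩
  set n : ℝ := (Fintype.card V : ℝ) with hn
  have hMr : (0 : ℝ) ≤ M := Nat.cast_nonneg M
  have hNr : (1 : ℝ) ≤ ((M + 1 : ℕ) : ℝ) := by push_cast; linarith
  have hnpos : 0 < n := by nlinarith
  have hpos := ZZ_pos U hP.symm ho hP.nonneg hP.le_one B hB hP.row (M + 1) hN h4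
  have hZN := hpos (M + 1) le_rfl
  have hc : 0 ≤ c := by
    have hne : Nonempty V := by
      rw [← Fintype.card_pos_iff]
      have h0 : (0 : ℝ) < (Fintype.card V : ℝ) := hnpos
      exact_mod_cast h0
    obtain ⟨z⟩ := hne
    rw [← hP.total z]
    exact mul_nonneg hν.le (sum_nonneg fun x _ => hP.nonneg x z)
  set N : ℝ := ((M + 1 : ℕ) : ℝ) with hNdef
  have hNM : N = M + 1 := by rw [hNdef]; push_cast; ring
  -- ratios
  have ratio : ∀ K : ℕ, K + 1 ≤ M + 1 → ZZ U K ≤ (2 * N / n) * ZZ U (K + 1) := by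
    intro K hK
    have hr := ZZ_ratio U hP.symm ho hP.nonneg hP.le_one B hP.row K
    have hKN : (K : ℝ) + 1 ≤ N := by rw [hNM]; exact_mod_cast hK
    have hK0 : (0 : ℝ) ≤ K := Nat.cast_nonneg K
    have hz := hpos K (by omega)
    have hz1 := hpos (K + 1) hK
    have hh : n / 2 ≤ n - 2 * B * K := by nlinarith
    have h5 : n / 2 * ZZ U K ≤ N * ZZ U (K + 1) := by
      calc n / 2 * ZZ U K ≤ (n - 2 * B * K) * ZZ U K := mul_le_mul_of_nonneg_right hh hz.le
        _ ≤ ((K : ℝ) + 1) * ZZ U (K + 1) := hr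
        _ ≤ N * ZZ U (K + 1) := mul_le_mul_of_nonneg_right hKN hz1.le
    have e : (2 * N / n) * ZZ U (K + 1) = (N * ZZ U (K + 1)) / (n / 2) := by
      field_simp
    rw [e, le_div_iff₀ (by positivity)]
    linarith
  have ratio1 : ZZ U M ≤ (N / n) * (1 + 4 * B * (N / n)) * ZZ U (M + 1) := by
    have hr := ZZ_ratio U hP.symm ho hP.nonneg hP.le_one B hP.row M
    rw [← hNM] at hr
    have hz := hpos M (by omega)
    set x : ℝ := N / n with hx
    have hx0 : 0 < x := by positivity
    have hxN : N = x * n := by rw [hx]; field_simp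
    have hx4 : 4 * B * x ≤ 1 := by
      have : 4 * B * x * n ≤ 1 * n := by rw [one_mul, mul_assoc, ← hxN]; exact h4
      exact le_of_mul_le_mul_right this hnpos
    have hMN : (M : ℝ) ≤ x * n := by rw [← hxN, hNM]; linarith
    have h5 : n * (1 - 2 * B * x) * ZZ U M ≤ x * n * ZZ U (M + 1) := by
      refine le_trans (mul_le_mul_of_nonneg_right ?_ hz.le) (by rw [← hxN]; exact hr)
      nlinarith
    have h6 : (1 - 2 * B * x) * ZZ U M ≤ x * ZZ U (M + 1) := by
      have : n * ((1 - 2 * B * x) * ZZ U M) ≤ n * (x * ZZ U (M + 1)) := by linarith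
      exact le_of_mul_le_mul_left this hnpos
    have h7 : 1 ≤ (1 + 4 * B * x) * (1 - 2 * B * x) := by
      have hBx : 0 ≤ B * x := by positivity
      nlinarith
    have h8 : 0 ≤ 1 + 4 * B * x := by positivity
    calc ZZ U M ≤ ((1 + 4 * B * x) * (1 - 2 * B * x)) * ZZ U M := by nlinarith
      _ = (1 + 4 * B * x) * ((1 - 2 * B * x) * ZZ U M) := by ring
      _ ≤ (1 + 4 * B * x) * (x * ZZ U (M + 1)) := mul_le_mul_of_nonneg_left h6 h8
      _ = _ := by ring
  -- the energy
  have hen : kin t (PP U (M + 1)) + potR w (PP U (M + 1)) ≤ M * c * ZZ U M +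
      (n * (2 * D * B ^ 2)) * (if 2 ≤ M then ZZ U (M - 2) else 0) := by
    rw [kin_PP U t hP.symm ho hP.le_one]
    refine le_trans (add_le_add (sum_le_sum fun S hS => mul_le_mul_of_nonneg_left
      (quad_leK U t D ht hP.nonneg hP.le_one S) (AA_nonneg U hP.le_one S))
      (potR_PP U w hw.wnonneg hP.symm hP.nonneg hP.le_one M)) ?_
    have hpa := pair_allK U t D B ht hB hP.symm hP.nonneg hP.le_one hP.row M
    have hone : ∑ S ∈ powersetCard M (univ : Finset V), AA U S * ∑ z ∈ S, QQ U t z z +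
        ∑ S ∈ powersetCard M (univ : Finset V),
          AA U S * ∑ z ∈ S, ∑ x, w x z / 2 * (1 - U x z) ^ 2 ≤ M * c * ZZ U M := by
      rw [← sum_add_distrib, ZZ, mul_sum]
      refine sum_le_sum fun S hS => ?_
      rw [← mul_add, ← sum_add_distrib, mul_comm (M * c)]
      refine mul_le_mul_of_nonneg_left ?_ (AA_nonneg U hP.le_one S)
      refine (sum_le_sum fun z _ => diagK U t w Hd D ν c κ B ht hν hP z).trans ?_
      rw [sum_const, (mem_powersetCard.mp hS).2, nsmul_eq_mul]
    simp only [mul_add, sum_add_distrib]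
    linarith
  have hpair : (n * (2 * D * B ^ 2)) * (if 2 ≤ M then ZZ U (M - 2) else 0) ≤
      16 * D * B ^ 2 * (N / n) ^ 2 * N * ZZ U (M + 1) := by
    have hr0 : 0 ≤ 2 * N / n := by positivity
    have h9 : (if 2 ≤ M then ZZ U (M - 2) else 0) ≤ (2 * N / n) ^ 3 * ZZ U (M + 1) := by
      split_ifs with h2
      · obtain ⟨K, rfl⟩ : ∃ K, M = K + 2 := ⟨M - 2, by omega⟩
        have r1 := ratio K (by omega)
        have r2 := ratio (K + 1) (by omega)
        have r3 := ratio (K + 2) (by omega)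
        calc ZZ U (K + 2 - 2) = ZZ U K := by congr 1
          _ ≤ (2 * N / n) * ZZ U (K + 1) := r1
          _ ≤ (2 * N / n) * ((2 * N / n) * ZZ U (K + 2)) := mul_le_mul_of_nonneg_left r2 hr0
          _ ≤ (2 * N / n) * ((2 * N / n) * ((2 * N / n) * ZZ U (K + 2 + 1))) :=
              mul_le_mul_of_nonneg_left (mul_le_mul_of_nonneg_left r3 hr0) hr0
          _ = _ := by ring
      · positivity
    calc _ ≤ (n * (2 * D * B ^ 2)) * ((2 * N / n) ^ 3 * ZZ U (M + 1)) :=
          mul_le_mul_of_nonneg_left h9 (by positivity)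
      _ = _ := by field_simp; ring
  -- normalisation
  refine ⟨fun S => PP U (M + 1) S / Real.sqrt (ZZ U (M + 1)), ?_, ?_, ?_, ?_⟩
  · intro S hS
    simp only [PP, if_neg hS, zero_div]
  · rintro S ⟨x, hx, y, hy, hxy, hH⟩
    have hA : AA U S = 0 := by
      unfold AA
      refine prod_eq_zero hx (prod_eq_zero hy ?_)
      rw [if_neg hxy, hP.hard x y hH, sub_self]
    simp only [PP, hA, Real.sqrt_zero, ite_self, zero_div]
  · have e : (fun S => PP U (M + 1) S / Real.sqrt (ZZ U (M + 1))) ⬝ᵥ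
        (fun S => PP U (M + 1) S / Real.sqrt (ZZ U (M + 1))) =
        (PP U (M + 1) ⬝ᵥ PP U (M + 1)) / ZZ U (M + 1) := by
      unfold dotProduct
      rw [sum_div]
      refine sum_congr rfl fun S _ => ?_
      rw [div_mul_div_comm, Real.mul_self_sqrt hZN.le]
    rw [e, PP_dot U hP.le_one, div_self hZN.ne']
  · have e : kin t (fun S => PP U (M + 1) S / Real.sqrt (ZZ U (M + 1))) =
        kin t (PP U (M + 1)) / ZZ U (M + 1) := by
      have e0 : (fun S => PP U (M + 1) S / Real.sqrt (ZZ U (M + 1))) =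
          (Real.sqrt (ZZ U (M + 1)))⁻¹ • PP U (M + 1) := by
        ext S; rw [Pi.smul_apply, smul_eq_mul, div_eq_inv_mul]
      have e1 : (Real.sqrt (ZZ U (M + 1)))⁻¹ * (Real.sqrt (ZZ U (M + 1)))⁻¹ =
          (ZZ U (M + 1))⁻¹ := by
        rw [← mul_inv, Real.mul_self_sqrt hZN.le]
      have e2 : ∀ x y, G ((Real.sqrt (ZZ U (M + 1)))⁻¹ • PP U (M + 1)) x y =
          (ZZ U (M + 1))⁻¹ * G (PP U (M + 1)) x y := by
        intro x y
        unfold G
        rw [map_smul, map_smul, smul_dotProduct, dotProduct_smul, smul_eq_mul, smul_eq_mul,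
          ← mul_assoc, e1]
      rw [e0]
      unfold kin
      simp only [e2]
      rw [sum_div]
      refine sum_congr rfl fun x _ => ?_
      rw [sum_div]
      refine sum_congr rfl fun y _ => ?_
      rw [div_eq_mul_inv]; ring
    have e' : potR w (fun S => PP U (M + 1) S / Real.sqrt (ZZ U (M + 1))) =
        potR w (PP U (M + 1)) / ZZ U (M + 1) := by
      unfold potR
      rw [sum_div]
      refine sum_congr rfl fun S _ => ?_
      rw [div_pow, Real.sq_sqrt hZN.le, mul_div_assoc]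
    rw [e, e', ← add_div, div_le_iff₀ hZN]
    refine hen.trans ?_
    have h10 : M * c * ZZ U M ≤ M * c * ((N / n) * (1 + 4 * B * (N / n)) * ZZ U (M + 1)) :=
      mul_le_mul_of_nonneg_left ratio1 (by positivity)
    have h11 : (N - 1) = M := by rw [hNM]; ring
    rw [h11]
    linarith

end Pool.Agent.Run7.h348.DEP
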